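import Mathlib

set_option autoImplicit false

namespace Pool.Agent.Lib.MP_c8e566_gt

open Set Filter Topology

abbrev C := ℕ → Bool

/-- Agreement of two pairs below `n`. -/
def Agree (n : ℕ) (z z' : C × C) : Prop := ∀ j, j < n → z'.1 j = z.1 j ∧ z'.2 j = z.2 j

/-- `j` is a common point of the pair. -/
def Com (z : C × C) (j : ℕ) : Prop := z.1 j = true ∧ z.2 j = true

/-- Extension without new common points. -/
def Ext (n : ℕ) (z z' : C × C) : Prop := Agree n z z' ∧ ∀ j, n ≤ j → ¬ Com z' j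

theorem exists_agree {O : Set (C × C)} (hO : IsOpen O) {z : C × C} (hz : z ∈ O) :
    ∃ n, ∀ z', Agree n z z' → z' ∈ O := by
  obtain ⟨U, V, hU, hV, h1, h2, h3⟩ := isOpen_prod_iff.1 hO z.1 z.2 hz
  obtain ⟨I, u, hu1, hu2⟩ := isOpen_pi_iff.1 hU z.1 h1
  obtain ⟨J, v, hv1, hv2⟩ := isOpen_pi_iff.1 hV z.2 h2
  refine ⟨(I ∪ J).sup id + 1, fun z' hz' => h3 (mk_mem_prod (hu2 fun i hi => ?_) (hv2 fun i hi => ?_))⟩
  · have : i ≤ (I ∪ J).sup id := Finset.le_sup (f := id) (Finset.mem_union_left _ hi)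
    rw [(hz' i (by omega)).1]
    exact (hu1 i hi).2
  · have : i ≤ (I ∪ J).sup id := Finset.le_sup (f := id) (Finset.mem_union_right _ hi)
    rw [(hz' i (by omega)).2]
    exact (hv1 i hi).2

theorem isOpen_agree (n : ℕ) (x : C) : IsOpen {y : C | ∀ j, j < n → y j = x j} := by
  have : {y : C | ∀ j, j < n → y j = x j} = ⋂ j ∈ Finset.range n, {y : C | y j = x j} := by
    ext y; simp
  rw [this]
  exact isOpen_biInter_finset fun j _ =>
    (isOpen_discrete {x j}).preimage (f := fun y : C => y j) (continuous_apply j)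

/-- The points near which `W` is comeagre. -/
def core (W : Set C) : Set C :=
  {x | ∃ O, IsOpen O ∧ x ∈ O ∧ ∀ᶠ y in residual C, y ∈ O → y ∈ W}

theorem isOpen_core (W : Set C) : IsOpen (core W) := by
  rw [isOpen_iff_forall_mem_open]
  rintro x ⟨O, h1, h2, h3⟩
  exact ⟨O, fun y hy => ⟨O, h1, hy, h3⟩, h1, h2⟩

theorem core_sub (W : Set C) : ∀ᶠ x in residual C, x ∈ core W → x ∈ W := by
  obtain ⟨T, hT1, hT2, hT3⟩ := TopologicalSpace.isOpen_sUnion_countable
    {O | IsOpen O ∧ ∀ᶠ y in residual C, y ∈ O → y ∈ W} (fun s hs => hs.1)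
  have := (eventually_countable_ball (l := residual C) hT1
    (p := fun y O _ => y ∈ O → y ∈ W)).2 (fun O hO => (hT2 hO).2)
  refine this.mono fun x hx ⟨O, h1, h2, h3⟩ => ?_
  have : x ∈ ⋃₀ T := hT3 ▸ ⟨O, ⟨h1, h3⟩, h2⟩
  obtain ⟨O', h4, h5⟩ := this
  exact hx O' h4 h5

theorem sub_core {W : Set C} (hW : MeasurableSet W) :
    ∀ᶠ x in residual C, x ∈ W → x ∈ core W := by
  obtain ⟨O, hO, h⟩ := hW.residualEq_isOpen
  refine Eventually.mono h fun x hx hxW => ⟨O, hO, (iff_of_eq hx).1 hxW, ?_⟩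
  exact Eventually.mono h fun y hy hyO => (iff_of_eq hy).2 hyO

def Big (n : ℕ) (W : Set C) : Prop :=
  ∀ z, ∃ z', Ext n z z' ∧ z'.1 ∈ core W ∧ z'.2 ∈ core W

def trunc (n : ℕ) (x : C) : C := fun j => if j < n then x j else false

theorem ext_trunc (n : ℕ) (z : C × C) (x : C) (hx : ∀ j, j < n → x j = z.1 j) :
    Ext n z (x, trunc n z.2) := by
  refine ⟨fun j hj => ⟨hx j hj, by simp [trunc, hj]⟩, fun j hj h => ?_⟩
  have := h.2
  simp [trunc, Nat.not_lt.2 hj] at this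

theorem ext_trunc' (n : ℕ) (z : C × C) (y : C) (hy : ∀ j, j < n → y j = z.2 j) :
    Ext n z (trunc n z.1, y) := by
  refine ⟨fun j hj => ⟨by simp [trunc, hj], hy j hj⟩, fun j hj h => ?_⟩
  have := h.1
  simp [trunc, Nat.not_lt.2 hj] at this

theorem Ext.trans {m n : ℕ} (hmn : m ≤ n) {z z' z'' : C × C} (h : Ext m z z') (h' : Ext n z' z'') :
    Ext m z z'' := by
  refine ⟨fun j hj => ?_, fun j hj hc => ?_⟩
  · obtain ⟨h1, h2⟩ := h.1 j hj
    obtain ⟨h3, h4⟩ := h'.1 j (by omega)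
    exact ⟨h3.trans h1, h4.trans h2⟩
  · by_cases hjn : j < n
    · obtain ⟨h3, h4⟩ := h'.1 j hjn
      exact h.2 j hj ⟨h3 ▸ hc.1, h4 ▸ hc.2⟩
    · exact h'.2 j (Nat.not_lt.1 hjn) hc

theorem Big.mono {m n : ℕ} (hmn : m ≤ n) {W : Set C} (h : Big n W) : Big m W := by
  intro z
  obtain ⟨z', h1, h2⟩ := h (z.1, trunc m z.2)
  exact ⟨z', (ext_trunc m z z.1 fun _ _ => rfl).trans hmn h1, h2⟩

def Robust (A : Set C) (W : ℕ → Set C) : Prop :=
  ∀ F : Set C, F.Finite → F ⊆ A → ∀ n, ∃ k, F ⊆ W k ∧ Big n (W k)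

/-- The forcing conditions. -/
structure Cond where
  A : Set C
  Pr : Set (ℕ → Set C)
  cA : A.Countable
  cP : Pr.Countable
  rob : ∀ W ∈ Pr, Robust A W

instance : Preorder Cond where
  le p q := q.A ⊆ p.A ∧ q.Pr ⊆ p.Pr
  le_refl _ := ⟨Subset.rfl, Subset.rfl⟩
  le_trans _ _ _ h h' := ⟨h'.1.trans h.1, h'.2.trans h.2⟩

instance : OrderTop Cond where
  top := ⟨∅, ∅, countable_empty, countable_empty, fun _ h => h.elim⟩
  le_top _ := ⟨empty_subset _, empty_subset _⟩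

theorem cond_closed (c : ℕ → Cond) (hc : Antitone c) : ∃ q, ∀ n, q ≤ c n := by
  refine ⟨⟨⋃ n, (c n).A, ⋃ n, (c n).Pr, countable_iUnion fun n => (c n).cA,
    countable_iUnion fun n => (c n).cP, ?_⟩,
    fun n => ⟨subset_iUnion (fun n => (c n).A) n, subset_iUnion (fun n => (c n).Pr) n⟩⟩
  intro W hW F hF hFA
  obtain ⟨n, hn⟩ := mem_iUnion.1 hW
  have : ∃ m, F ⊆ (c m).A := by
    have hd : Directed (· ⊆ ·) (fun n => (c n).A) :=
      Monotone.directed_le fun a b hab => (hc hab).1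
    obtain ⟨m, hm⟩ := hd.exists_mem_subset_of_finset_subset_biUnion (s := hF.toFinset)
      (by simpa using hFA)
    exact ⟨m, by simpa using hm⟩
  obtain ⟨m, hm⟩ := this
  exact (c (max n m)).rob W ((hc (le_max_left n m)).2 hn) F hF
    (hm.trans (hc (le_max_right n m)).1)

section AddPair

variable {Y : Set (C × C)} {n₀ : ℕ}

theorem ev_of_dense {G : Set (C × C)} (hG : IsOpen G)
    (h : ∀ z ∈ Y, ∀ n, ∃ z' ∈ Y, Agree n z z' ∧ z' ∈ G) :
    ∀ᶠ z : Y in residual Y, z.1 ∈ G := by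
  refine residual_of_dense_open (hG.preimage continuous_subtype_val) ?_
  rw [dense_iff_inter_open]
  rintro U hU ⟨z, hz⟩
  obtain ⟨O, hO, rfl⟩ := isOpen_induced_iff.1 hU
  obtain ⟨n, hn⟩ := exists_agree hO hz
  obtain ⟨z', h1, h2, h3⟩ := h z.1 z.2 n
  exact ⟨⟨z', h1⟩, hn z' h2, h3⟩

theorem Agree.mono {m n : ℕ} (hmn : m ≤ n) {z z' : C × C} (h : Agree n z z') : Agree m z z' :=
  fun j hj => h j (by omega)

theorem ev_coord (hY : ∀ z ∈ Y, ∀ n, n₀ ≤ n → ∀ z', Ext n z z' → z' ∈ Y) {R : Set C}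
    (hR : R ∈ residual C) : ∀ᶠ z : Y in residual Y, z.1.1 ∈ R ∧ z.1.2 ∈ R := by
  obtain ⟨S, h1, h2, h3, h4⟩ := mem_residual_iff.1 hR
  have key : ∀ O ∈ S, ∀ᶠ z : Y in residual Y, z.1.1 ∈ O ∧ z.1.2 ∈ O := by
    intro O hO
    refine Eventually.and ?_ ?_
    · refine ev_of_dense (G := Prod.fst ⁻¹' O) ((h1 O hO).preimage continuous_fst) ?_
      intro z hz n
      obtain ⟨x, hx1, hx2⟩ := (h2 O hO).inter_open_nonempty _ (isOpen_agree (max n n₀) z.1)
        ⟨z.1, fun _ _ => rfl⟩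
      have := ext_trunc (max n n₀) z x hx1
      exact ⟨_, hY z hz _ (le_max_right _ _) _ this, this.1.mono (le_max_left _ _), hx2⟩
    · refine ev_of_dense (G := Prod.snd ⁻¹' O) ((h1 O hO).preimage continuous_snd) ?_
      intro z hz n
      obtain ⟨x, hx1, hx2⟩ := (h2 O hO).inter_open_nonempty _ (isOpen_agree (max n n₀) z.2)
        ⟨z.2, fun _ _ => rfl⟩
      have := ext_trunc' (max n n₀) z x hx1
      exact ⟨_, hY z hz _ (le_max_right _ _) _ this, this.1.mono (le_max_left _ _), hx2⟩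
  refine ((eventually_countable_ball h3).2 key).mono fun z hz => ?_
  exact ⟨h4 fun O hO => (hz O hO).1, h4 fun O hO => (hz O hO).2⟩

theorem add_pair (hcl : IsClosed Y) (hne : Y.Nonempty)
    (hY : ∀ z ∈ Y, ∀ n, n₀ ≤ n → ∀ z', Ext n z z' → z' ∈ Y) {Q : C × C → Prop}
    (hQ : ∀ᶠ z : Y in residual Y, Q z.1) (p : Cond) :
    ∃ q, q ≤ p ∧ ∃ z ∈ Y, Q z ∧ z.1 ∈ q.A ∧ z.2 ∈ q.A := by
  have : CompactSpace Y := isCompact_iff_compactSpace.1 hcl.isCompact
  have : Nonempty Y := hne.to_subtype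
  have h1 : ∀ᶠ x in residual C, ∀ W ∈ p.Pr, ∀ k, x ∈ core (W k) → x ∈ W k :=
    (eventually_countable_ball p.cP).2 fun W _ =>
      eventually_countable_forall.2 fun k => core_sub (W k)
  have h2 := ev_coord hY h1
  have h3 : ∀ᶠ z : Y in residual Y, ∀ W ∈ p.Pr, ∀ F ∈ {F : Set C | F.Finite ∧ F ⊆ p.A}, ∀ n,
      z.1 ∈ {z : C × C | ∃ k, F ⊆ W k ∧ Big n (W k) ∧ z.1 ∈ core (W k) ∧ z.2 ∈ core (W k)} := by
    refine (eventually_countable_ball p.cP).2 fun W hW =>
      (eventually_countable_ball (countable_ofPred_finite_subset p.cA)).2 fun F hF =>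
        eventually_countable_forall.2 fun n => ev_of_dense ?_ ?_
    · rw [ofPred_exists]
      refine isOpen_iUnion fun k => ?_
      exact isOpen_const.and (isOpen_const.and (((isOpen_core _).preimage continuous_fst).inter
        ((isOpen_core _).preimage continuous_snd)))
    · intro z hz m
      obtain ⟨k, hk1, hk2⟩ := p.rob W hW F hF.1 hF.2 (max (max n m) n₀)
      obtain ⟨z', h4, h5⟩ := hk2 z
      exact ⟨z', hY z hz _ (le_max_right _ _) _ h4,
        h4.1.mono ((le_max_right _ _).trans (le_max_left _ _)), k, hk1,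
        hk2.mono ((le_max_left _ _).trans (le_max_left _ _)), h5⟩
  obtain ⟨z, hz1, ⟨hz2, hz3⟩, hz4⟩ := (dense_of_mem_residual (hQ.and (h2.and h3))).nonempty
  refine ⟨⟨insert z.1.1 (insert z.1.2 p.A), p.Pr, (p.cA.insert _).insert _, p.cP, ?_⟩,
    ⟨(subset_insert _ _).trans (subset_insert _ _), Subset.rfl⟩, z.1, z.2, hz1,
    mem_insert _ _, mem_insert_of_mem _ (mem_insert _ _)⟩
  intro W hW F hF hFA n
  obtain ⟨k, h4, h5, h6, h7⟩ := hz4 W hW (F ∩ p.A) ⟨hF.inter_of_left _, inter_subset_right⟩ n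
  refine ⟨k, fun x hx => ?_, h5⟩
  rcases hFA hx with rfl | rfl | h8
  · exact hz2 W hW k h6
  · exact hz3 W hW k h7
  · exact h4 ⟨hx, h8⟩

end AddPair

theorem isClosed_coord (f : C × C → C) (hf : Continuous f) (j : ℕ) (b : Bool) :
    IsClopen {z | f z j = b} :=
  (isClopen_discrete {b}).preimage ((continuous_apply j).comp hf)

theorem isClopen_com (j : ℕ) : IsClopen {z | Com z j} :=
  (isClosed_coord _ continuous_fst j true).inter (isClosed_coord _ continuous_snd j true)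

theorem isClosed_noCom (n : ℕ) : IsClosed {z | ∀ j, n ≤ j → ¬ Com z j} := by
  simp only [ofPred_forall]
  exact isClosed_iInter fun j => isClosed_iInter fun _ => (isClopen_com j).compl.isClosed

theorem isClosed_ext (n : ℕ) (z : C × C) : IsClosed {z' | Ext n z z'} := by
  refine IsClosed.inter ?_ (isClosed_noCom n)
  change IsClosed {z' : C × C | ∀ j, j < n → z'.1 j = z.1 j ∧ z'.2 j = z.2 j}
  simp only [ofPred_forall]
  exact isClosed_iInter fun j => isClosed_iInter fun _ =>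
    ((isClosed_coord _ continuous_fst j _).inter (isClosed_coord _ continuous_snd j _)).isClosed

theorem add_pairs (n : ℕ) {R : Set C} (hR : R ∈ residual C) (p : Cond) :
    ∃ q, q ≤ p ∧ ∃ E : Set C, E.Finite ∧ E ⊆ q.A ∧ E ⊆ R ∧
      ∀ z, ∃ z', Ext n z z' ∧ z'.1 ∈ E ∧ z'.2 ∈ E := by
  have key : ∀ T : Set (C × C), T.Finite → ∃ q, q ≤ p ∧ ∃ E : Set C, E.Finite ∧ E ⊆ q.A ∧ E ⊆ R ∧
      ∀ z ∈ T, ∃ z', Ext n z z' ∧ z'.1 ∈ E ∧ z'.2 ∈ E := by
    intro T hT
    induction T, hT using Set.Finite.induction_on with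
    | empty => exact ⟨p, le_rfl, ∅, finite_empty, empty_subset _, empty_subset _, fun _ h => h.elim⟩
    | @insert z T _ _ ih =>
      obtain ⟨q, h1, E, h2, h3, h4, h5⟩ := ih
      have hY : ∀ w ∈ {z' | Ext n z z'}, ∀ m, n ≤ m → ∀ w', Ext m w w' → w' ∈ {z' | Ext n z z'} :=
        fun w hw m hm w' hw' => Ext.trans hm hw hw'
      obtain ⟨r, h6, w, h7, h8, h9, h10⟩ := add_pair (isClosed_ext n z)
        ⟨_, ext_trunc n z z.1 fun _ _ => rfl⟩ hY (Q := fun w => w.1 ∈ R ∧ w.2 ∈ R)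
        (ev_coord hY hR) q
      refine ⟨r, h6.trans h1, insert w.1 (insert w.2 E), (h2.insert _).insert _,
        insert_subset h9 (insert_subset h10 (h3.trans h6.1)),
        insert_subset h8.1 (insert_subset h8.2 h4), ?_⟩
      rintro v (rfl | hv)
      · exact ⟨w, h7, mem_insert _ _, mem_insert_of_mem _ (mem_insert _ _)⟩
      · obtain ⟨v', h11, h12, h13⟩ := h5 v hv
        exact ⟨v', h11, mem_insert_of_mem _ (mem_insert_of_mem _ h12),
          mem_insert_of_mem _ (mem_insert_of_mem _ h13)⟩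
  let pad : (Fin n → Bool) → C := fun s j => if h : j < n then s ⟨j, h⟩ else false
  obtain ⟨q, h1, E, h2, h3, h4, h5⟩ := key
    (range fun s : (Fin n → Bool) × (Fin n → Bool) => (pad s.1, pad s.2)) (finite_range _)
  refine ⟨q, h1, E, h2, h3, h4, fun z => ?_⟩
  obtain ⟨z', h6, h7⟩ := h5 _ ⟨(fun j => z.1 j, fun j => z.2 j), rfl⟩
  refine ⟨z', ⟨fun j hj => ?_, h6.2⟩, h7⟩
  simpa [pad, hj] using h6.1 j hj

theorem select (U : ℕ → ℕ → Set C) (hU : ∀ n k, MeasurableSet (U n k)) (p : Cond) :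
    ∃ q, q ≤ p ∧ ((∃ n, ∃ F : Set C, F.Finite ∧ F ⊆ q.A ∧ ∀ k, ¬ F ⊆ U n k) ∨
      ∃ κ : ℕ → ℕ, (fun n => U n (κ n)) ∈ q.Pr) := by
  by_cases h : ∃ q, q ≤ p ∧ ∃ n, ∃ F : Set C, F.Finite ∧ F ⊆ q.A ∧ ∀ k, ¬ F ⊆ U n k
  · obtain ⟨q, h1, h2⟩ := h
    exact ⟨q, h1, Or.inl h2⟩
  push Not at h
  have hR : ∀ᶠ x in residual C, ∀ n k, x ∈ U n k → x ∈ core (U n k) :=
    eventually_countable_forall.2 fun n => eventually_countable_forall.2 fun k => sub_core (hU n k)
  have key : ∀ i, ∀ F : Set C, F.Finite → F ⊆ p.A → ∀ n, ∃ k, F ⊆ U i k ∧ Big n (U i k) := by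
    intro i F hF hFA n
    obtain ⟨q, h1, E, h2, h3, h4, h5⟩ := add_pairs n hR p
    obtain ⟨k, hk⟩ := h q h1 i (F ∪ E) (hF.union h2) (union_subset (hFA.trans h1.1) h3)
    refine ⟨k, subset_union_left.trans hk, fun z => ?_⟩
    obtain ⟨z', h6, h7, h8⟩ := h5 z
    exact ⟨z', h6, h4 h7 i k (hk (Or.inr h7)), h4 h8 i k (hk (Or.inr h8))⟩
  have : Countable {F : Set C | F.Finite ∧ F ⊆ p.A} :=
    (countable_ofPred_finite_subset p.cA).to_subtype
  have : Nonempty {F : Set C | F.Finite ∧ F ⊆ p.A} := ⟨⟨∅, finite_empty, empty_subset _⟩⟩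
  obtain ⟨e, he⟩ := exists_surjective_nat ({F : Set C | F.Finite ∧ F ⊆ p.A} × ℕ)
  choose κ hκ using fun i => key i (e i).1.1 (e i).1.2.1 (e i).1.2.2 (e i).2
  refine ⟨⟨p.A, insert (fun n => U n (κ n)) p.Pr, p.cA, p.cP.insert _, ?_⟩,
    ⟨Subset.rfl, subset_insert _ _⟩, Or.inr ⟨κ, mem_insert _ _⟩⟩
  rintro W (rfl | hW)
  · intro F hF hFA n
    obtain ⟨i, hi⟩ := he (⟨F, hF, hFA⟩, n)
    have := hκ i
    rw [hi] at this
    exact ⟨i, this⟩
  · exact p.rob W hW

open Classical in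
/-- The number of common points below `m`. -/
noncomputable def cnt (z : C × C) (m : ℕ) : ℕ := ((Finset.range m).filter (Com z)).card

theorem cnt_mono (z : C × C) {m m' : ℕ} (h : m ≤ m') : cnt z m ≤ cnt z m' := by
  classical
  exact Finset.card_le_card (Finset.filter_subset_filter _ (Finset.range_mono h))

theorem cnt_le_of_imp {z z' : C × C} {m : ℕ} (h : ∀ j, j < m → Com z' j → Com z j) :
    cnt z' m ≤ cnt z m := by
  classical
  refine Finset.card_le_card fun j hj => ?_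
  simp only [Finset.mem_filter, Finset.mem_range] at hj ⊢
  exact ⟨hj.1, h j hj.1 hj.2⟩

theorem isClopen_cnt (m : ℕ) (Q : ℕ → Prop) : IsClopen {z | Q (cnt z m)} := by
  have key : ∀ Q : ℕ → Prop, IsOpen {z | Q (cnt z m)} := by
    intro Q
    rw [isOpen_iff_forall_mem_open]
    intro z hz
    refine ⟨Prod.fst ⁻¹' {y : C | ∀ j, j < m → y j = z.1 j} ∩
      Prod.snd ⁻¹' {y : C | ∀ j, j < m → y j = z.2 j}, ?_,
      ((isOpen_agree m z.1).preimage continuous_fst).inter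
        ((isOpen_agree m z.2).preimage continuous_snd), fun _ _ => rfl, fun _ _ => rfl⟩
    rintro z' ⟨h1, h2⟩
    have : cnt z' m = cnt z m := le_antisymm
      (cnt_le_of_imp fun j hj hc => ⟨h1 j hj ▸ hc.1, h2 j hj ▸ hc.2⟩)
      (cnt_le_of_imp fun j hj hc => ⟨(h1 j hj).trans hc.1, (h2 j hj).trans hc.2⟩)
    change Q (cnt z' m)
    rw [this]
    exact hz
  exact ⟨⟨key fun k => ¬ Q k⟩, key Q⟩

/-- The closed pieces of the Borel sets in the square. -/
def KK (n m j : ℕ) : Set (C × C) := {z | ∀ i, j ≤ i → ¬ Com z i} ∪ {z | n < cnt z m}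

theorem isClosed_KK (n m j : ℕ) : IsClosed (KK n m j) :=
  (isClosed_noCom j).union (isClopen_cnt m (n < ·)).isClosed

/-- The Borel sets in the square. -/
def UU (n m : ℕ) : Set (C × C) := ⋃ j, KK n m j

theorem UU_mono (n : ℕ) {m m' : ℕ} (h : m ≤ m') : UU n m ⊆ UU n m' :=
  iUnion_mono fun _ => union_subset_union_right _ fun z hz => lt_of_lt_of_le hz (cnt_mono z h)

theorem exists_UU (n : ℕ) (z : C × C) : ∃ m, z ∈ UU n m := by
  classical
  by_cases h : {j | Com z j}.Finite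
  · obtain ⟨j, hj⟩ := h.bddAbove
    exact ⟨0, mem_iUnion.2 ⟨j + 1, Or.inl fun i hi hc => by have := hj hc; omega⟩⟩
  · obtain ⟨T, hT1, hT2⟩ := Set.Infinite.exists_subset_card_eq h (n + 1)
    refine ⟨T.sup id + 1, mem_iUnion.2 ⟨0, Or.inr ?_⟩⟩
    change n + 1 ≤ cnt z _
    rw [← hT2]
    refine Finset.card_le_card fun j hj => ?_
    simp only [Finset.mem_filter, Finset.mem_range]
    exact ⟨Nat.lt_succ_of_le (Finset.le_sup (f := id) hj), hT1 hj⟩

theorem dominate (h : ℕ → ℕ) (p : Cond) :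
    ∃ q, q ≤ p ∧ ∃ z : C × C, z.1 ∈ q.A ∧ z.2 ∈ q.A ∧ ∀ n, z ∉ UU n (h n) := by
  classical
  let Y : Set (C × C) := {z | ∀ n, cnt z (h n) ≤ n}
  have hcl : IsClosed Y := by
    simp only [Y, ofPred_forall]
    exact isClosed_iInter fun n => (isClopen_cnt (h n) (· ≤ n)).isClosed
  have hne : Y.Nonempty := ⟨(fun _ => false, fun _ => false), fun n => by simp [cnt, Com]⟩
  have hY : ∀ z ∈ Y, ∀ n, 0 ≤ n → ∀ z', Ext n z z' → z' ∈ Y := by
    intro z hz n _ z' hz' m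
    refine le_trans (cnt_le_of_imp fun j _ hc => ?_) (hz m)
    by_cases hj : j < n
    · obtain ⟨h1, h2⟩ := hz'.1 j hj
      exact ⟨h1 ▸ hc.1, h2 ▸ hc.2⟩
    · exact absurd hc (hz'.2 j (Nat.not_lt.1 hj))
  have hQ : ∀ᶠ z : Y in residual Y, ∀ i, z.1 ∈ ⋃ j, ⋃ (_ : i ≤ j), {z | Com z j} := by
    refine eventually_countable_forall.2 fun i => ev_of_dense
      (isOpen_iUnion fun j => isOpen_iUnion fun _ => (isClopen_com j).isOpen) fun z hz n => ?_
    obtain ⟨j, hj1, hj2, hj3⟩ : ∃ j, n ≤ j ∧ i ≤ j ∧ ∀ m, m ≤ n → h m ≤ j := by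
      refine ⟨n + i + (Finset.range (n + 1)).sup h, by omega, by omega, fun m hm => ?_⟩
      have : h m ≤ (Finset.range (n + 1)).sup h :=
        Finset.le_sup (f := h) (Finset.mem_range.2 (Nat.lt_succ_of_le hm))
      omega
    let f : C → C := fun x k => if k < n then x k else decide (k = j)
    have hcom : ∀ k, Com (f z.1, f z.2) k → (k < n ∧ Com z k) ∨ k = j := by
      intro k hk
      by_cases hkn : k < n
      · left
        simpa [Com, f, hkn] using hk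
      · right
        simpa [Com, f, hkn] using hk
    refine ⟨(f z.1, f z.2), fun m => ?_, fun k hk => by simp [f, hk], ?_⟩
    · by_cases hm : m ≤ n
      · refine le_trans (cnt_le_of_imp fun k hk hc => ?_) (hz m)
        rcases hcom k hc with h1 | h1
        · exact h1.2
        · have := hj3 m hm
          omega
      · have : cnt (f z.1, f z.2) (h m) ≤ (insert j (Finset.range n)).card := by
          refine Finset.card_le_card fun k hk => ?_
          rcases hcom k (Finset.mem_filter.1 hk).2 with h1 | h1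
          · exact Finset.mem_insert_of_mem (Finset.mem_range.2 h1.1)
          · exact h1 ▸ Finset.mem_insert_self _ _
        have h2 := Finset.card_insert_le j (Finset.range n)
        rw [Finset.card_range] at h2
        omega
    · refine mem_iUnion₂.2 ⟨j, hj2, ?_⟩
      simp [Com, f, Nat.not_lt.2 hj1]
  obtain ⟨q, h1, z, h2, h3, h4, h5⟩ := add_pair hcl hne hY
    (Q := fun z => ∀ i, z ∈ ⋃ j, ⋃ (_ : i ≤ j), {z | Com z j}) hQ p
  refine ⟨q, h1, z, h4, h5, fun n hn => ?_⟩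
  obtain ⟨j, h6 | h6⟩ := mem_iUnion.1 hn
  · obtain ⟨i, h7, h8⟩ := mem_iUnion₂.1 (h3 j)
    exact h6 i h7 h8
  · exact absurd (h2 n) (not_le.2 h6)

end Pool.Agent.Lib.MP_c8e566_gt
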