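import Mathlib

set_option autoImplicit false

namespace Pool.Agent.Lib.MP_c8e566_gt

/-- A real number as a set: the Dedekind cut of the rationals below `r`, each rational being
coded by a von Neumann numeral. -/
def real (r : ℝ) : ZFSet.{0} :=
  ZFSet.omega.sep
    (fun z => ∃ q : ℚ, (q : ℝ) < r ∧ z = ZFSet.mk (PSet.ofNat (Encodable.encode q)))

/-- A point of the plane as a set: the ordered pair of its coordinates. -/
def point (v : ℝ × ℝ) : ZFSet.{0} := ZFSet.pair (real v.1) (real v.2)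

/-- `f` is a sequence: a function with domain `ω`. -/
def IsSeq (f : ZFSet.{0}) : Prop := ∃ b, ZFSet.IsFunc ZFSet.omega b f

/-- The range of a function. -/
def ran (f : ZFSet.{0}) : ZFSet.{0} :=
  (ZFSet.sUnion (ZFSet.sUnion f)).sep (fun y => ∃ x, ZFSet.pair x y ∈ f)

/-- `a` is countable in `M`: it is contained in the range of a sequence that belongs to `M`. -/
def CountableIn (M a : ZFSet.{0}) : Prop := ∃ f ∈ M, IsSeq f ∧ a ⊆ ran f

variable {T : Type} [TopologicalSpace T] (c : T → ZFSet.{0}) (M Y : ZFSet.{0})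

/-- `O` is an open subset of the subspace `Y` of `T` (points of `T` are coded by `c`). -/
def IsRelOpen (O : ZFSet.{0}) : Prop :=
  ∃ V : Set T, IsOpen V ∧ ∀ z, z ∈ O ↔ z ∈ Y ∧ z ∈ c '' V

/-- In `M`, `A` is a Borel subset of `Y`: it lies in every family `K ∈ M` that contains the
open subsets of `Y` and is closed under complements and countable unions. -/
def IsBorelIn (A : ZFSet.{0}) : Prop :=
  ∀ K ∈ M, (∀ O ∈ M, IsRelOpen c Y O → O ∈ K) → (∀ B ∈ K, Y \ B ∈ K) →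
    (∀ W ∈ M, W ⊆ K → CountableIn M W → ZFSet.sUnion W ∈ K) → A ∈ K

/-- In `M`, `W` is a countable Borel `ω`-cover of `Y` that does not have `Y` as a member. -/
def IsBOmega (W : ZFSet.{0}) : Prop :=
  W ∈ M ∧ CountableIn M W ∧ (∀ U ∈ W, IsBorelIn c M Y U) ∧ Y ∉ W ∧
    ∀ F : ZFSet.{0}, F ⊆ Y → (F : Set ZFSet.{0}).Finite → ∃ U ∈ W, F ⊆ U

/-- In `M`, the space `Y` satisfies `S₁(B_Ω, B_Ω)`. -/
def S1 : Prop :=
  ∀ s ∈ M, IsSeq s → (∀ W ∈ ran s, IsBOmega c M Y W) →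
    ∃ t ∈ M, IsSeq t ∧ (∀ n W U, ZFSet.pair n W ∈ s → ZFSet.pair n U ∈ t → U ∈ W) ∧
      IsBOmega c M Y (ran t)

/-- In `M`, the space `Y` satisfies `S_fin(B_Ω, B_Ω)`. -/
def Sfin : Prop :=
  ∀ s ∈ M, IsSeq s → (∀ W ∈ ran s, IsBOmega c M Y W) →
    ∃ t ∈ M, IsSeq t ∧ (∀ n W F, ZFSet.pair n W ∈ s → ZFSet.pair n F ∈ t →
        F ⊆ W ∧ (F : Set ZFSet.{0}).Finite) ∧
      IsBOmega c M Y (ZFSet.sUnion (ran t))

end Pool.Agent.Lib.MP_c8e566_gt
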