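import Mathlib
import Pool.Agent.Lib.ZFCForcing.Req
import Pool.Agent.Lib.MP_c8e566_gt.Defs
import Pool.Agent.Lib.MP_c8e566_gt.Comb

set_option autoImplicit false

namespace Pool.Agent.Lib.MP_c8e566_gt

open Set Filter Topology Pool.Agent.Lib.ZFCForcing

theorem mem_real {r : ℝ} {z : ZFSet.{0}} :
    z ∈ real r ↔ ∃ q : ℚ, (q : ℝ) < r ∧ natZ (Encodable.encode q) = z := by
  rw [real, ZFSet.mem_sep, mem_omega]
  constructor
  · rintro ⟨_, q, hq, rfl⟩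
    exact ⟨q, hq, rfl⟩
  · rintro ⟨q, hq, rfl⟩
    exact ⟨⟨_, rfl⟩, q, hq, rfl⟩

theorem real_inj {r s : ℝ} (h : real r = real s) : r = s := by
  have key : ∀ {r s : ℝ}, real r = real s → ¬ r < s := by
    intro r s h hrs
    obtain ⟨q, h1, h2⟩ := exists_rat_btwn hrs
    have : natZ (Encodable.encode q) ∈ real r := h ▸ mem_real.2 ⟨q, h2, rfl⟩
    obtain ⟨q', h3, h4⟩ := mem_real.1 this
    rw [Encodable.encode_injective (natZ_inj h4)] at h3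
    exact lt_asymm h1 h3
  exact le_antisymm (not_lt.1 (key h.symm)) (not_lt.1 (key h))

theorem point_inj {v w : ℝ × ℝ} (h : point v = point w) : v = w := by
  obtain ⟨h1, h2⟩ := ZFSet.pair_inj.1 h
  exact Prod.ext (real_inj h1) (real_inj h2)

theorem mem_ran {f y : ZFSet.{0}} : y ∈ ran f ↔ ∃ x, ZFSet.pair x y ∈ f := by
  rw [ran, ZFSet.mem_sep]
  refine ⟨fun h => h.2, fun ⟨x, h⟩ => ⟨?_, x, h⟩⟩
  refine ZFSet.mem_sUnion.2 ⟨{x, y}, ZFSet.mem_sUnion.2 ⟨_, h, ?_⟩, by simp⟩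
  simp [ZFSet.pair]

theorem IsSeq.dom {f x y : ZFSet.{0}} (h : IsSeq f) (hxy : ZFSet.pair x y ∈ f) :
    ∃ n, natZ n = x := by
  obtain ⟨b, h1, _⟩ := h
  exact mem_omega.1 (ZFSet.pair_mem_prod.1 (h1 hxy)).1

theorem IsSeq.uniq {f x y y' : ZFSet.{0}} (h : IsSeq f) (hxy : ZFSet.pair x y ∈ f)
    (hxy' : ZFSet.pair x y' ∈ f) : y = y' := by
  obtain ⟨n, rfl⟩ := h.dom hxy
  obtain ⟨b, _, h2⟩ := h
  exact (h2 _ (mem_omega.2 ⟨n, rfl⟩)).unique hxy hxy'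

theorem IsSeq.total {f : ZFSet.{0}} (h : IsSeq f) (n : ℕ) : ∃ y, ZFSet.pair (natZ n) y ∈ f := by
  obtain ⟨b, _, h2⟩ := h
  exact (h2 _ (mem_omega.2 ⟨n, rfl⟩)).exists

section General

variable {P : Type} [Preorder P] [OrderTop P]

/-- The name of a real. -/
def rN (P : Type) [Preorder P] [OrderTop P] (r : ℝ) : Name P :=
  fam (fun q : {q : ℚ // (q : ℝ) < r} => natN P (Encodable.encode q.1))

/-- The name of a sequence. -/
def seqN (ρ : ℕ → Name P) : Name P := fam (fun n => op (natN P n) (ρ n))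

variable {S : Set (Name P)} {D : Set P}

theorem val_rN (h : Gen S D) (r : ℝ) : val S D (rN P r) = real r := by
  ext z
  rw [rN, h.mem_val_fam (fun q => h.natN_mem _), mem_real]
  simp only [h.val_natN]
  exact ⟨fun ⟨q, hq⟩ => ⟨q.1, q.2, hq⟩, fun ⟨q, h1, h2⟩ => ⟨⟨q, h1⟩, h2⟩⟩

theorem of_seqN (h : Gen S D) {ρ : ℕ → Name P} (hρ : seqN ρ ∈ S) (n : ℕ) : ρ n ∈ S :=
  (h.of_op_mem (h.sub _ hρ (inferInstanceAs (Countable ℕ)) n)).2

theorem of_fam (h : Gen S D) {κ : Type} [Countable κ] {ρ : κ → Name P} (hρ : fam ρ ∈ S) (k : κ) :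
    ρ k ∈ S := h.sub _ hρ (inferInstanceAs (Countable κ)) k

theorem mem_val_seqN (h : Gen S D) {ρ : ℕ → Name P} (hρ : ∀ n, ρ n ∈ S) {z : ZFSet.{0}} :
    z ∈ val S D (seqN ρ) ↔ ∃ n, ZFSet.pair (natZ n) (val S D (ρ n)) = z := by
  rw [seqN, h.mem_val_fam (fun n => h.op_mem (h.natN_mem n) (hρ n))]
  simp only [fun n => h.val_op (h.natN_mem n) (hρ n), h.val_natN]

theorem pair_mem_seqN (h : Gen S D) {ρ : ℕ → Name P} (hρ : ∀ n, ρ n ∈ S) {x y : ZFSet.{0}} :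
    ZFSet.pair x y ∈ val S D (seqN ρ) ↔ ∃ n, natZ n = x ∧ val S D (ρ n) = y := by
  rw [mem_val_seqN h hρ]
  simp only [ZFSet.pair_inj]

theorem ran_seqN (h : Gen S D) {ρ : ℕ → Name P} (hρ : ∀ n, ρ n ∈ S) :
    ran (val S D (seqN ρ)) = val S D (fam ρ) := by
  ext y
  rw [mem_ran, h.mem_val_fam hρ]
  simp only [pair_mem_seqN h hρ]
  exact ⟨fun ⟨_, n, _, h2⟩ => ⟨n, h2⟩, fun ⟨n, h2⟩ => ⟨_, n, rfl, h2⟩⟩

theorem isSeq_seqN (h : Gen S D) {ρ : ℕ → Name P} (hρ : ∀ n, ρ n ∈ S) :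
    IsSeq (val S D (seqN ρ)) := by
  refine ⟨val S D (fam ρ), fun z hz => ?_, fun z hz => ?_⟩
  · obtain ⟨n, rfl⟩ := (mem_val_seqN h hρ).1 hz
    exact ZFSet.pair_mem_prod.2 ⟨mem_omega.2 ⟨n, rfl⟩, h.val_mem_fam (hρ n)⟩
  · obtain ⟨n, rfl⟩ := mem_omega.1 hz
    refine ⟨val S D (ρ n), (pair_mem_seqN h hρ).2 ⟨n, rfl, rfl⟩, fun y hy => ?_⟩
    obtain ⟨m, h1, rfl⟩ := (pair_mem_seqN h hρ).1 hy
    rw [natZ_inj h1]

theorem countableIn_fam [Small.{0} S] (h : Gen S D) {ρ : ℕ → Name P} (hρ : seqN ρ ∈ S) :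
    CountableIn (model S D) (val S D (fam ρ)) :=
  ⟨_, mem_model.2 ⟨_, hρ, rfl⟩, isSeq_seqN h (of_seqN h hρ), by
    rw [ran_seqN h (of_seqN h hρ)]⟩

theorem not_mem_val (h : Gen S D) {σ τ : Name P} (hσ : σ ∈ S) (hτ : τ ∈ S)
    (hn : val S D σ ∉ val S D τ) : ∃ p ∈ D, ∀ q, q ≤ p → ¬ FMem σ τ q := by
  obtain ⟨p, hp, h1 | ⟨j, _, h2, h3⟩⟩ := h.mem_dec σ hσ τ hτ
  · exact ⟨p, hp, h1⟩
  · exact absurd ((h.val_mem_iff hσ hτ).2 ⟨p, hp, FMem.of_eq j h2 h3⟩) hn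

theorem pair_mem_iff (h : Gen S D) {σ τ : Name P} (hσ : σ ∈ S) (hτ : τ ∈ S) (n : ℕ) :
    ZFSet.pair (natZ n) (val S D σ) ∈ val S D τ ↔ ∃ p ∈ D, FMem (op (natN P n) σ) τ p := by
  rw [← h.val_natN, ← h.val_op (h.natN_mem n) hσ, h.val_mem_iff (h.op_mem (h.natN_mem n) hσ) hτ]

/-- A requirement that adds countably many fixed names. -/
def reqConst {I : Type} [Countable I] (f : I → Name P) : Req P :=
  reqClose I (fun _ => Empty) (fun i _ => f i)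

end General

abbrev Bor := {B : Set C // MeasurableSet B}

variable (e : C → ℝ)

/-- The name of the trace of a set on the generic set. -/
def nm1 (B : Set C) : Name Cond :=
  Name.mk {x : C × Cond // x.1 ∈ B ∧ x.1 ∈ x.2.A} (fun x => rN Cond (e x.1.1)) (fun x => x.1.2)

/-- The name of the trace of a set on the square of the generic set. -/
def nm2 (B : Set (C × C)) : Name Cond :=
  Name.mk {x : (C × C) × Cond // x.1 ∈ B ∧ x.1.1 ∈ x.2.A ∧ x.1.2 ∈ x.2.A}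
    (fun x => op (rN Cond (e x.1.1.1)) (rN Cond (e x.1.1.2))) (fun x => x.1.2)

def sigN : Name Cond := fam (fun B : Bor => nm1 e B.1)

def reqReal : Req Cond where
  I := Unit
  cnt := inferInstance
  ar _ := Empty
  fin := inferInstance
  Ψ _ _ p W := ∀ x ∈ p.A, rN Cond (e x) ∈ W
  dense _ _ p := ⟨p, le_rfl, (fun x => rN Cond (e x)) '' p.A, p.cA.image _,
    fun x hx => ⟨x, hx, rfl⟩⟩

def reqCompl : Req Cond where
  I := Unit
  cnt := inferInstance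
  ar _ := Unit
  fin := inferInstance
  Ψ _ a _ W := (∃ B : Bor, nm1 e B.1 = a ()) → ∃ B : Bor, nm1 e B.1 = a () ∧ nm1 e B.1ᶜ ∈ W
  dense _ a p := by
    by_cases h : ∃ B : Bor, nm1 e B.1 = a ()
    · obtain ⟨B, hB⟩ := h
      exact ⟨p, le_rfl, {nm1 e B.1ᶜ}, countable_singleton _, fun _ => ⟨B, hB, rfl⟩⟩
    · exact ⟨p, le_rfl, ∅, countable_empty, fun h' => absurd h' h⟩

open Classical in
def reqCount : Req Cond where
  I := Unit
  cnt := inferInstance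
  ar _ := Bool
  fin := inferInstance
  Ψ _ a p W := ∃ (N : Set ℕ) (B : ℕ → Bor),
    (∀ n ∈ N, FMem (op (natN Cond n) (nm1 e (B n).1)) (a true) p ∧
      FMem (nm1 e (B n).1) (a false) p) ∧
    (∀ n ∉ N, ∀ (B' : Bor) q, q ≤ p → ¬ (FMem (op (natN Cond n) (nm1 e B'.1)) (a true) q ∧
      FMem (nm1 e B'.1) (a false) q)) ∧
    (∀ n, nm1 e (B n).1 ∈ W) ∧ nm1 e (⋃ n ∈ N, (B n).1) ∈ W ∧
    ∀ n₀, fam (fun k => nm1 e (B (if k ∈ N then k else n₀)).1) ∈ W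
  dense _ a p := by
    obtain ⟨q, hq, h⟩ := decide_all cond_closed (I := ℕ) (β := fun _ => Bor)
      (fun n B p => FMem (op (natN Cond n) (nm1 e B.1)) (a true) p ∧ FMem (nm1 e B.1) (a false) p)
      (fun _ _ _ _ h hq => ⟨h.1.mono hq, h.2.mono hq⟩) p
    let N : Set ℕ := {n | ∃ B : Bor,
      FMem (op (natN Cond n) (nm1 e B.1)) (a true) q ∧ FMem (nm1 e B.1) (a false) q}
    have : ∀ n, ∃ B : Bor, n ∈ N →
        FMem (op (natN Cond n) (nm1 e B.1)) (a true) q ∧ FMem (nm1 e B.1) (a false) q := by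
      intro n
      by_cases hn : n ∈ N
      · exact hn.imp fun B hB _ => hB
      · exact ⟨⟨∅, MeasurableSet.empty⟩, fun h => absurd h hn⟩
    choose B hB using this
    refine ⟨q, hq, range (fun n => nm1 e (B n).1) ∪ {nm1 e (⋃ n ∈ N, (B n).1)} ∪
      range (fun n₀ => fam (fun k => nm1 e (B (if k ∈ N then k else n₀)).1)),
      ((countable_range _).union (countable_singleton _)).union (countable_range _), N, B, hB,
      fun n hn => (h n).resolve_left hn, fun n => Or.inl (Or.inl ⟨n, rfl⟩),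
      Or.inl (Or.inr rfl), fun n₀ => Or.inr ⟨n₀, rfl⟩⟩

def reqOpen : Req Cond where
  I := Unit
  cnt := inferInstance
  ar _ := Unit
  fin := inferInstance
  Ψ _ a p W := ∃ N : Set (TopologicalSpace.countableBasis ℝ),
    (∀ J ∉ N, ∃ x ∈ p.A, e x ∈ J.1 ∧ ∀ q, q ≤ p → ¬ FMem (rN Cond (e x)) (a ()) q) ∧
    (∀ J ∈ N, ∀ x r, r ≤ p → ¬ (x ∈ r.A ∧ e x ∈ J.1 ∧
      ∀ q, q ≤ r → ¬ FMem (rN Cond (e x)) (a ()) q)) ∧
    nm1 e (e ⁻¹' ⋃ J ∈ N, J.1) ∈ W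
  dense _ a p := by
    have : Countable (TopologicalSpace.countableBasis ℝ) :=
      (TopologicalSpace.countable_countableBasis ℝ).to_subtype
    obtain ⟨q, hq, h⟩ := decide_all cond_closed (I := TopologicalSpace.countableBasis ℝ)
      (β := fun _ => C)
      (fun J x p => x ∈ p.A ∧ e x ∈ J.1 ∧ ∀ q, q ≤ p → ¬ FMem (rN Cond (e x)) (a ()) q)
      (fun _ _ _ _ h hq => ⟨hq.1 h.1, h.2.1, fun r hr => h.2.2 r (hr.trans hq)⟩) p
    exact ⟨q, hq, {_}, countable_singleton _, {J | ∀ x r, r ≤ q → ¬ (x ∈ r.A ∧ e x ∈ J.1 ∧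
      ∀ q, q ≤ r → ¬ FMem (rN Cond (e x)) (a ()) q)}, fun J hJ => (h J).resolve_right hJ,
      fun J hJ => hJ, rfl⟩

def reqSel : Req Cond where
  I := Unit
  cnt := inferInstance
  ar _ := Unit
  fin := inferInstance
  Ψ _ a p W := (∃ n, ∀ (B : ℕ → Bor) q, q ≤ p →
      ¬ FMem (op (natN Cond n) (fam fun k => nm1 e (B k).1)) (a ()) q) ∨
    ∃ B : ℕ → ℕ → Bor, (∀ n, FMem (op (natN Cond n) (fam fun k => nm1 e (B n k).1)) (a ()) p ∧
        (fam fun k => nm1 e (B n k).1) ∈ W) ∧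
      ((∃ n, ∃ F : Set C, F.Finite ∧ F ⊆ p.A ∧ ∀ k, ¬ F ⊆ (B n k).1) ∨
        ∃ κ : ℕ → ℕ, (fun n => (B n (κ n)).1) ∈ p.Pr ∧
          seqN (fun n => nm1 e (B n (κ n)).1) ∈ W ∧ fam (fun n => nm1 e (B n (κ n)).1) ∈ W ∧
          seqN (fun n => up (nm1 e (B n (κ n)).1) (nm1 e (B n (κ n)).1)) ∈ W)
  dense _ a p := by
    obtain ⟨q, hq, h⟩ := decide_all cond_closed (I := ℕ) (β := fun _ => ℕ → Bor)
      (fun n B p => FMem (op (natN Cond n) (fam fun k => nm1 e (B k).1)) (a ()) p)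
      (fun _ _ _ _ h hq => h.mono hq) p
    by_cases h1 : ∀ n, ∃ B : ℕ → Bor,
      FMem (op (natN Cond n) (fam fun k => nm1 e (B k).1)) (a ()) q
    · choose B hB using h1
      obtain ⟨r, hr, h2 | ⟨κ, h2⟩⟩ := select (fun n k => (B n k).1) (fun n k => (B n k).2) q
      · exact ⟨r, hr.trans hq, range (fun n => fam fun k => nm1 e (B n k).1), countable_range _,
          Or.inr ⟨B, fun n => ⟨(hB n).mono hr, n, rfl⟩, Or.inl h2⟩⟩
      · refine ⟨r, hr.trans hq, range (fun n => fam fun k => nm1 e (B n k).1) ∪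
          {seqN (fun n => nm1 e (B n (κ n)).1), fam (fun n => nm1 e (B n (κ n)).1),
            seqN (fun n => up (nm1 e (B n (κ n)).1) (nm1 e (B n (κ n)).1))},
          (countable_range _).union (toFinite _).countable,
          Or.inr ⟨B, fun n => ⟨(hB n).mono hr, Or.inl ⟨n, rfl⟩⟩, Or.inr ⟨κ, h2, ?_, ?_, ?_⟩⟩⟩
        · exact Or.inr (Or.inl rfl)
        · exact Or.inr (Or.inr (Or.inl rfl))
        · exact Or.inr (Or.inr (Or.inr rfl))
    · obtain ⟨n, hn⟩ := not_forall.1 h1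
      exact ⟨q, hq, ∅, countable_empty, Or.inl ⟨n, (h n).resolve_left hn⟩⟩

def reqDom {β : Type} (ν : ℕ → β → Name Cond) (bd : β → ℕ) : Req Cond where
  I := Unit
  cnt := inferInstance
  ar _ := Unit
  fin := inferInstance
  Ψ _ a p _ := ∃ (h : ℕ → ℕ) (z : C × C), z.1 ∈ p.A ∧ z.2 ∈ p.A ∧ (∀ n, z ∉ UU n (h n)) ∧
    ∀ n, (∃ b, bd b ≤ h n ∧ FMem (op (natN Cond n) (ν n b)) (a ()) p) ∨
      ∀ b q, q ≤ p → ¬ FMem (op (natN Cond n) (ν n b)) (a ()) q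
  dense _ a p := by
    obtain ⟨q, hq, h⟩ := decide_all cond_closed (I := ℕ) (β := fun _ => β)
      (fun n b p => FMem (op (natN Cond n) (ν n b)) (a ()) p)
      (fun _ _ _ _ h hq => h.mono hq) p
    have : ∀ n, ∃ m, (∃ b, bd b ≤ m ∧ FMem (op (natN Cond n) (ν n b)) (a ()) q) ∨
        ∀ b r, r ≤ q → ¬ FMem (op (natN Cond n) (ν n b)) (a ()) r := by
      intro n
      rcases h n with ⟨b, hb⟩ | hb
      · exact ⟨bd b, Or.inl ⟨b, le_rfl, hb⟩⟩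
      · exact ⟨0, Or.inr hb⟩
    choose g hg using this
    obtain ⟨r, hr, z, h1, h2, h3⟩ := dominate g q
    exact ⟨r, hr.trans hq, ∅, countable_empty, g, z, h1, h2, h3, fun n => (hg n).imp
      (fun ⟨b, h4, h5⟩ => ⟨b, h4, h5.mono hr⟩) (fun h4 b s hs => h4 b s (hs.trans hr))⟩

def reqOut : Req Cond where
  I := ℕ
  cnt := inferInstance
  ar _ := Empty
  fin := inferInstance
  Ψ m _ p _ := ∃ z : C × C, z.1 ∈ p.A ∧ z.2 ∈ p.A ∧ ∀ n, z ∉ UU n m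
  dense m _ p := by
    obtain ⟨r, hr, h⟩ := dominate (fun _ => m) p
    exact ⟨r, hr, ∅, countable_empty, h⟩

end Pool.Agent.Lib.MP_c8e566_gt
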