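import Mathlib
import Pool.Agent.Lib.MP_c8e566_gt.Names

set_option autoImplicit false

namespace Pool.Agent.Lib.MP_c8e566_gt

open Set Filter Topology Pool.Agent.Lib.ZFCForcing

/-- The names that are put into the model at the start. -/
inductive Cst : Type
  | sig | univ1 | univ2 | big
  | row (n : ℕ) | kseq (n m : ℕ) | kfam (n m : ℕ) | kc (n m j : ℕ) | fin (n : ℕ) (T : Finset ℕ)

instance : Countable Cst := by
  let f : Cst → ℕ × ℕ × ℕ × ℕ × Finset ℕ := fun c => match c with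
    | Cst.sig => (0, 0, 0, 0, ∅)
    | Cst.univ1 => (1, 0, 0, 0, ∅)
    | Cst.univ2 => (2, 0, 0, 0, ∅)
    | Cst.big => (3, 0, 0, 0, ∅)
    | Cst.row n => (4, n, 0, 0, ∅)
    | Cst.kseq n m => (5, n, m, 0, ∅)
    | Cst.kfam n m => (6, n, m, 0, ∅)
    | Cst.kc n m j => (7, n, m, j, ∅)
    | Cst.fin n T => (8, n, 0, 0, T)
  refine Function.Injective.countable (f := f) fun a b h => ?_
  cases a <;> cases b <;> simp_all [f]

variable (e : C → ℝ)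

def finN (n : ℕ) (T : Finset ℕ) : Name Cond := fam fun m : T => nm2 e (UU n m.1)

def cst : Cst → Name Cond
  | Cst.sig => sigN e
  | Cst.univ1 => nm1 e univ
  | Cst.univ2 => nm2 e univ
  | Cst.big => seqN fun n => fam fun m => nm2 e (UU n m)
  | Cst.row n => seqN fun m => nm2 e (UU n m)
  | Cst.kseq n m => seqN fun j => nm2 e (KK n m j)
  | Cst.kfam n m => fam fun j => nm2 e (KK n m j)
  | Cst.kc n m j => nm2 e (KK n m j)ᶜ
  | Cst.fin n T => finN e n T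

def reqs : List (Req Cond) :=
  [reqConst (cst e), reqReal e, reqCompl e, reqCount e, reqOpen e, reqSel e,
    reqDom (fun n m => nm2 e (UU n m)) id, reqDom (finN e) (fun T => T.sup id), reqOut]

structure Ctx (S : Set (Name Cond)) (D : Set Cond) : Prop where
  inj : Function.Injective e
  cont : Continuous e
  gen : Gen S D
  req : ∀ R ∈ reqs e, ∀ i a, (∀ k, a k ∈ S) → ∀ p₀ ∈ D,
    ∃ p ∈ D, p ≤ p₀ ∧ ∃ W, W ⊆ S ∧ R.Ψ i a p W

/-- The generic set. -/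
def ZZ (D : Set Cond) : Set C := {x | ∃ p ∈ D, x ∈ p.A}

variable {e} {S : Set (Name Cond)} {D : Set Cond}

namespace Ctx

theorem cst_mem (h : Ctx e S D) (c : Cst) : cst e c ∈ S := by
  obtain ⟨p, _, _, W, hW, h1⟩ := h.req (reqConst (cst e)) (by simp [reqs]) c Empty.elim
    (fun k => k.elim) ⊤ h.gen.top
  exact hW h1

theorem rN_mem (h : Ctx e S D) {x : C} (hx : x ∈ ZZ D) : rN Cond (e x) ∈ S := by
  obtain ⟨q, hq, hx⟩ := hx
  obtain ⟨p, _, hp, W, hW, h1⟩ := h.req (reqReal e) (by simp [reqs]) () Empty.elim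
    (fun k => k.elim) q hq
  exact hW (h1 x (hp.1 hx))

theorem mem_nm1 (h : Ctx e S D) {B : Set C} {z : ZFSet.{0}} :
    z ∈ val S D (nm1 e B) ↔ ∃ x ∈ B, x ∈ ZZ D ∧ real (e x) = z := by
  rw [mem_val]
  constructor
  · rintro ⟨⟨⟨x, p⟩, h1, h2⟩, _, h4, rfl⟩
    exact ⟨x, h1, ⟨p, h4, h2⟩, (val_rN h.gen _).symm⟩
  · rintro ⟨x, h1, ⟨p, h2, h3⟩, rfl⟩
    exact ⟨⟨(x, p), h1, h3⟩, h.rN_mem ⟨p, h2, h3⟩, h2, val_rN h.gen _⟩

theorem real_mem_nm1 (h : Ctx e S D) {B : Set C} {x : C} :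
    real (e x) ∈ val S D (nm1 e B) ↔ x ∈ B ∧ x ∈ ZZ D := by
  rw [h.mem_nm1]
  refine ⟨fun ⟨y, h1, h2, h3⟩ => ?_, fun h1 => ⟨x, h1.1, h1.2, rfl⟩⟩
  obtain rfl := h.inj (real_inj h3)
  exact ⟨h1, h2⟩

theorem mem_nm2 (h : Ctx e S D) {B : Set (C × C)} {z : ZFSet.{0}} :
    z ∈ val S D (nm2 e B) ↔ ∃ v ∈ B, v.1 ∈ ZZ D ∧ v.2 ∈ ZZ D ∧ point (Prod.map e e v) = z := by
  have key : ∀ v : C × C, v.1 ∈ ZZ D → v.2 ∈ ZZ D →
      val S D (op (rN Cond (e v.1)) (rN Cond (e v.2))) = point (Prod.map e e v) := by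
    intro v h1 h2
    rw [h.gen.val_op (h.rN_mem h1) (h.rN_mem h2), val_rN h.gen, val_rN h.gen]
    rfl
  rw [mem_val]
  constructor
  · rintro ⟨⟨⟨v, p⟩, h1, h2, h3⟩, _, h4, rfl⟩
    exact ⟨v, h1, ⟨p, h4, h2⟩, ⟨p, h4, h3⟩, (key v ⟨p, h4, h2⟩ ⟨p, h4, h3⟩).symm⟩
  · rintro ⟨v, h1, h2, h3, rfl⟩
    obtain ⟨p, hp, h4⟩ := id h2
    obtain ⟨q, hq, h5⟩ := id h3
    obtain ⟨r, hr, hr1, hr2⟩ := h.gen.dir p hp q hq
    exact ⟨⟨(v, r), h1, hr1.1 h4, hr2.1 h5⟩, h.gen.op_mem (h.rN_mem h2) (h.rN_mem h3), hr,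
      key v h2 h3⟩

theorem point_mem_nm2 (h : Ctx e S D) {B : Set (C × C)} {v : C × C} :
    point (Prod.map e e v) ∈ val S D (nm2 e B) ↔ v ∈ B ∧ v.1 ∈ ZZ D ∧ v.2 ∈ ZZ D := by
  rw [h.mem_nm2]
  refine ⟨fun ⟨y, h1, h2, h3, h4⟩ => ?_, fun h1 => ⟨v, h1.1, h1.2.1, h1.2.2, rfl⟩⟩
  obtain rfl := (h.inj.prodMap h.inj) (point_inj h4)
  exact ⟨h1, h2, h3⟩

theorem prod_eq (h : Ctx e S D) :
    (val S D (nm1 e univ)).prod (val S D (nm1 e univ)) = val S D (nm2 e univ) := by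
  ext z
  rw [ZFSet.mem_prod, h.mem_nm2]
  constructor
  · rintro ⟨a, ha, b, hb, rfl⟩
    obtain ⟨x, _, hx, rfl⟩ := h.mem_nm1.1 ha
    obtain ⟨y, _, hy, rfl⟩ := h.mem_nm1.1 hb
    exact ⟨(x, y), trivial, hx, hy, rfl⟩
  · rintro ⟨v, _, h1, h2, rfl⟩
    exact ⟨_, h.real_mem_nm1.2 ⟨trivial, h1⟩, _, h.real_mem_nm1.2 ⟨trivial, h2⟩, rfl⟩

theorem mem_sig (h : Ctx e S D) {U : ZFSet.{0}} :
    U ∈ val S D (sigN e) ↔ ∃ B : Bor, nm1 e B.1 ∈ S ∧ val S D (nm1 e B.1) = U := by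
  rw [mem_val]
  exact ⟨fun ⟨B, h1, _, h2⟩ => ⟨B, h1, h2⟩, fun ⟨B, h1, h2⟩ => ⟨B, h1, h.gen.top, h2⟩⟩

theorem finite_sub (h : Ctx e S D) {F : Set C} (hF : F.Finite) (hZ : F ⊆ ZZ D) {p : Cond}
    (hp : p ∈ D) : ∃ q ∈ D, q ≤ p ∧ F ⊆ q.A := by
  induction F, hF using Set.Finite.induction_on with
  | empty => exact ⟨p, hp, le_rfl, empty_subset _⟩
  | @insert x F _ _ ih =>
    obtain ⟨q, hq, h1, h2⟩ := ih ((subset_insert _ _).trans hZ)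
    obtain ⟨r, hr, h3⟩ := hZ (mem_insert _ _)
    obtain ⟨s, hs, h4, h5⟩ := h.gen.dir q hq r hr
    exact ⟨s, hs, h4.trans h1, insert_subset (h5.1 h3) (h2.trans h4.1)⟩

variable [Small.{0} S]

open Classical in
theorem count_sub (h : Ctx e S D) {w : ZFSet.{0}} (hw : w ∈ model S D)
    (hsub : w ⊆ val S D (sigN e)) (hc : CountableIn (model S D) w) :
    ∃ (N : Set ℕ) (B : ℕ → Bor), (∀ U, U ∈ w ↔ ∃ n ∈ N, val S D (nm1 e (B n).1) = U) ∧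
      (∀ n, nm1 e (B n).1 ∈ S) ∧ nm1 e (⋃ n ∈ N, (B n).1) ∈ S ∧
      ∀ n₀, fam (fun k => nm1 e (B (if k ∈ N then k else n₀)).1) ∈ S := by
  obtain ⟨f, hf, hseq, hran⟩ := hc
  obtain ⟨f', hf', rfl⟩ := mem_model.1 hf
  obtain ⟨w', hw', rfl⟩ := mem_model.1 hw
  obtain ⟨p, hp, _, W, hW, N, B, h1, h2, h3, h4, h5⟩ := h.req (reqCount e) (by simp [reqs]) ()
    (fun b => cond b f' w') (fun b => by cases b <;> assumption) ⊤ h.gen.top
  refine ⟨N, B, fun U => ⟨fun hU => ?_, ?_⟩, fun n => hW (h3 n), hW h4, fun n => hW (h5 n)⟩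
  · obtain ⟨B', h6, rfl⟩ := h.mem_sig.1 (hsub hU)
    obtain ⟨x, hx⟩ := mem_ran.1 (hran hU)
    obtain ⟨n, rfl⟩ := hseq.dom hx
    by_cases hn : n ∈ N
    · exact ⟨n, hn, hseq.uniq
        ((pair_mem_iff h.gen (hW (h3 n)) hf' n).2 ⟨p, hp, (h1 n hn).1⟩) hx⟩
    · obtain ⟨q, hq, h7⟩ := (pair_mem_iff h.gen h6 hf' n).1 hx
      obtain ⟨q', hq', h8⟩ := (h.gen.val_mem_iff h6 hw').1 hU
      obtain ⟨r, hr, hr1, hr2⟩ := h.gen.dir q hq q' hq'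
      obtain ⟨s, _, hs1, hs2⟩ := h.gen.dir r hr p hp
      exact absurd ⟨h7.mono (hs1.trans hr1), h8.mono (hs1.trans hr2)⟩ (h2 n hn B' s hs2)
  · rintro ⟨n, hn, rfl⟩
    exact (h.gen.val_mem_iff (hW (h3 n)) hw').2 ⟨p, hp, (h1 n hn).2⟩

theorem borel_sub (h : Ctx e S D) {U : ZFSet.{0}}
    (hU : IsBorelIn real (model S D) (val S D (nm1 e univ)) U) : U ∈ val S D (sigN e) := by
  refine hU _ (mem_model.2 ⟨_, h.cst_mem Cst.sig, rfl⟩) ?_ ?_ ?_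
  · rintro O hO ⟨V, hV, hOV⟩
    obtain ⟨a, ha, rfl⟩ := mem_model.1 hO
    obtain ⟨p, hp, _, W, hW, N, h1, h2, h3⟩ := h.req (reqOpen e) (by simp [reqs]) ()
      (fun _ => a) (fun _ => ha) ⊤ h.gen.top
    have hop : IsOpen (e ⁻¹' ⋃ J ∈ N, J.1) :=
      (isOpen_biUnion fun J _ => TopologicalSpace.isOpen_of_mem_countableBasis J.2).preimage h.cont
    refine h.mem_sig.2 ⟨⟨_, hop.measurableSet⟩, hW h3, ?_⟩
    ext z
    rw [h.mem_nm1]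
    constructor
    · rintro ⟨x, h4, h5, rfl⟩
      obtain ⟨J, hJ, h6⟩ := mem_iUnion₂.1 h4
      by_contra hn
      rw [← val_rN h.gen] at hn
      obtain ⟨q, hq, h7⟩ := not_mem_val h.gen (h.rN_mem h5) ha hn
      obtain ⟨q', hq', h8⟩ := h5
      obtain ⟨r, hr, hr1, hr2⟩ := h.gen.dir q hq q' hq'
      obtain ⟨s, _, hs1, hs2⟩ := h.gen.dir r hr p hp
      exact h2 J hJ x s hs2 ⟨(hs1.trans hr2).1 h8, h6, fun t ht => h7 t (ht.trans (hs1.trans hr1))⟩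
    · intro hz
      obtain ⟨h4, r, hr, h5⟩ := (hOV z).1 hz
      obtain ⟨x, _, hx, rfl⟩ := h.mem_nm1.1 h4
      obtain rfl := real_inj h5
      obtain ⟨J, hJ, h6, h7⟩ :=
        (TopologicalSpace.isBasis_countableBasis ℝ).exists_subset_of_mem_open hr hV
      refine ⟨x, mem_iUnion₂.2 ⟨⟨J, hJ⟩, ?_, h6⟩, hx, rfl⟩
      by_contra hn
      obtain ⟨y, h8, h9, h10⟩ := h1 _ hn
      have hy : y ∈ ZZ D := ⟨p, hp, h8⟩
      have : real (e y) ∈ val S D a :=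
        (hOV _).2 ⟨h.real_mem_nm1.2 ⟨trivial, hy⟩, _, h7 h9, rfl⟩
      rw [← val_rN h.gen] at this
      obtain ⟨q, hq, h11⟩ := (h.gen.val_mem_iff (h.rN_mem hy) ha).1 this
      obtain ⟨s, _, hs1, hs2⟩ := h.gen.dir q hq p hp
      exact h10 s hs2 (h11.mono hs1)
  · intro U hU
    obtain ⟨B, hB, rfl⟩ := h.mem_sig.1 hU
    obtain ⟨p, hp, _, W, hW, h1⟩ := h.req (reqCompl e) (by simp [reqs]) ()
      (fun _ => nm1 e B.1) (fun _ => hB) ⊤ h.gen.top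
    obtain ⟨B', h2, h3⟩ := h1 ⟨B, rfl⟩
    refine h.mem_sig.2 ⟨⟨B'.1ᶜ, B'.2.compl⟩, hW h3, ?_⟩
    rw [← show nm1 e B'.1 = nm1 e B.1 from h2]
    ext z
    rw [ZFSet.mem_sdiff, h.mem_nm1]
    constructor
    · rintro ⟨x, h4, h5, rfl⟩
      exact ⟨h.real_mem_nm1.2 ⟨trivial, h5⟩, fun h6 => h4 (h.real_mem_nm1.1 h6).1⟩
    · rintro ⟨h4, h5⟩
      obtain ⟨x, _, hx, rfl⟩ := h.mem_nm1.1 h4
      exact ⟨x, fun h6 => h5 (h.real_mem_nm1.2 ⟨h6, hx⟩), hx, rfl⟩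
  · intro w hw hsub hc
    obtain ⟨N, B, h1, _, h2, _⟩ := h.count_sub hw hsub hc
    refine h.mem_sig.2 ⟨⟨_, MeasurableSet.biUnion (to_countable N) fun n _ => (B n).2⟩, h2, ?_⟩
    ext z
    rw [ZFSet.mem_sUnion, h.mem_nm1]
    constructor
    · rintro ⟨x, h3, h4, rfl⟩
      obtain ⟨n, hn, h5⟩ := mem_iUnion₂.1 h3
      exact ⟨_, (h1 _).2 ⟨n, hn, rfl⟩, h.real_mem_nm1.2 ⟨h5, h4⟩⟩
    · rintro ⟨U, h3, h4⟩
      obtain ⟨n, hn, rfl⟩ := (h1 U).1 h3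
      obtain ⟨x, h5, h6, rfl⟩ := h.mem_nm1.1 h4
      exact ⟨x, mem_iUnion₂.2 ⟨n, hn, h5⟩, h6, rfl⟩

theorem select_main (h : Ctx e S D) {s : ZFSet.{0}} (hs : s ∈ model S D) (hseq : IsSeq s)
    (hcov : ∀ W ∈ ran s, IsBOmega real (model S D) (val S D (nm1 e univ)) W) :
    ∃ ρ : ℕ → Name Cond, seqN ρ ∈ S ∧ seqN (fun n => up (ρ n) (ρ n)) ∈ S ∧
      (∀ n W, ZFSet.pair (natZ n) W ∈ s → val S D (ρ n) ∈ W) ∧
      IsBOmega real (model S D) (val S D (nm1 e univ)) (val S D (fam ρ)) := by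
  classical
  obtain ⟨s', hs', rfl⟩ := mem_model.1 hs
  obtain ⟨p, hp, _, W, hW, ⟨n, h1⟩ | ⟨B, h1, h2⟩⟩ := h.req (reqSel e) (by simp [reqs]) ()
    (fun _ => s') (fun _ => hs') ⊤ h.gen.top
  · exfalso
    obtain ⟨w, hw⟩ := hseq.total n
    obtain ⟨h2, h3, h4, _, h5⟩ := hcov w (mem_ran.2 ⟨_, hw⟩)
    obtain ⟨N, B, h6, h7, _, h8⟩ := h.count_sub h2 (fun U hU => h.borel_sub (h4 U hU)) h3
    obtain ⟨U, hU, _⟩ := h5 ∅ (ZFSet.empty_subset _) (by simp)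
    obtain ⟨n₀, hn₀, _⟩ := (h6 U).1 hU
    have : val S D (fam (fun k => nm1 e (B (if k ∈ N then k else n₀)).1)) = w := by
      ext V
      rw [h.gen.mem_val_fam (fun _ => h7 _), h6]
      constructor
      · rintro ⟨k, rfl⟩
        refine ⟨_, ?_, rfl⟩
        split_ifs with hk
        exacts [hk, hn₀]
      · rintro ⟨k, hk, rfl⟩
        exact ⟨k, by rw [if_pos hk]⟩
    rw [← this] at hw
    obtain ⟨q, hq, h9⟩ := (pair_mem_iff h.gen (h8 n₀) hs' n).1 hw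
    obtain ⟨r, _, hr1, hr2⟩ := h.gen.dir p hp q hq
    exact h1 (fun k => B (if k ∈ N then k else n₀)) r hr1 (h9.mono hr2)
  have hB : ∀ n k, nm1 e (B n k).1 ∈ S := fun n => of_fam h.gen (hW (h1 n).2)
  have hpair : ∀ n, ZFSet.pair (natZ n) (val S D (fam fun k => nm1 e (B n k).1)) ∈ val S D s' :=
    fun n => (pair_mem_iff h.gen (hW (h1 n).2) hs' n).2 ⟨p, hp, (h1 n).1⟩
  have hom := fun n => hcov _ (mem_ran.2 ⟨_, hpair n⟩)
  rcases h2 with ⟨n, F, h2, h3, h4⟩ | ⟨κ, h2, h3, h4, h5⟩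
  · exfalso
    have : Finite F := h2.to_subtype
    obtain ⟨U, hU, h5⟩ := (hom n).2.2.2.2 (ZFSet.range fun x : F => real (e x.1)) (by
      intro z hz
      obtain ⟨x, rfl⟩ := ZFSet.mem_range.1 hz
      exact h.real_mem_nm1.2 ⟨trivial, p, hp, h3 x.2⟩) (by
      rw [ZFSet.coe_range]
      exact finite_range _)
    obtain ⟨k, rfl⟩ := (h.gen.mem_val_fam (hB n)).1 hU
    exact h4 k fun x hx => (h.real_mem_nm1.1 (h5 (ZFSet.mem_range.2 ⟨⟨x, hx⟩, rfl⟩))).1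
  · have hin : ∀ n, val S D (nm1 e (B n (κ n)).1) ∈ val S D (fam fun k => nm1 e (B n k).1) :=
      fun n => h.gen.val_mem_fam (ρ := fun k => nm1 e (B n k).1) (hB n _)
    refine ⟨fun n => nm1 e (B n (κ n)).1, hW h3, hW h5, fun n w hw => ?_,
      mem_model.2 ⟨_, hW h4, rfl⟩, countableIn_fam h.gen (hW h3), fun U hU => ?_, fun hU => ?_,
      fun F hF hfin => ?_⟩
    · rw [hseq.uniq hw (hpair n)]
      exact hin n
    · obtain ⟨n, rfl⟩ := (h.gen.mem_val_fam (fun n => hB n _)).1 hU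
      exact (hom n).2.2.1 _ (hin n)
    · obtain ⟨n, hn⟩ := (h.gen.mem_val_fam (fun n => hB n _)).1 hU
      exact (hom n).2.2.2.1 (hn ▸ hin n)
    · have hinj : Function.Injective fun x => real (e x) := fun x y hxy => h.inj (real_inj hxy)
      have hF' : ((fun x => real (e x)) ⁻¹' (F : Set ZFSet.{0})).Finite :=
        hfin.preimage hinj.injOn
      obtain ⟨q, hq, h6, h7⟩ := h.finite_sub hF'
        (fun x hx => (h.real_mem_nm1.1 (hF hx)).2) hp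
      obtain ⟨n, h8, _⟩ := q.rob _ (h6.2 h2) _ hF' h7 0
      refine ⟨_, h.gen.val_mem_fam (ρ := fun n => nm1 e (B n (κ n)).1) (hB n _), fun z hz => ?_⟩
      obtain ⟨x, _, hx, rfl⟩ := h.mem_nm1.1 (hF hz)
      exact h.real_mem_nm1.2 ⟨h8 hz, hx⟩

theorem s1 (h : Ctx e S D) : S1 real (model S D) (val S D (nm1 e univ)) := by
  intro s hs hseq hcov
  obtain ⟨ρ, h1, _, h2, h3⟩ := h.select_main hs hseq hcov
  have hρ := of_seqN h.gen h1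
  refine ⟨_, mem_model.2 ⟨_, h1, rfl⟩, isSeq_seqN h.gen hρ, fun n W U hW hU => ?_, ?_⟩
  · obtain ⟨m, rfl, rfl⟩ := (pair_mem_seqN h.gen hρ).1 hU
    exact h2 m W hW
  · rwa [ran_seqN h.gen hρ]

theorem sfin (h : Ctx e S D) : Sfin real (model S D) (val S D (nm1 e univ)) := by
  intro s hs hseq hcov
  obtain ⟨ρ, h1, h1', h2, h3⟩ := h.select_main hs hseq hcov
  have hρ := of_seqN h.gen h1
  have hρ' := of_seqN h.gen h1'
  have hv : ∀ n U, U ∈ val S D (up (ρ n) (ρ n)) ↔ U = val S D (ρ n) := by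
    intro n U
    rw [h.gen.val_up (hρ n) (hρ n), ZFSet.mem_pair, or_self]
  refine ⟨_, mem_model.2 ⟨_, h1', rfl⟩, isSeq_seqN h.gen hρ', fun n W F hW hF => ?_, ?_⟩
  · obtain ⟨m, rfl, rfl⟩ := (pair_mem_seqN h.gen hρ').1 hF
    refine ⟨fun U hU => (hv m U).1 hU ▸ h2 m W hW, ?_⟩
    exact (finite_singleton (val S D (ρ m))).subset fun U hU => (hv m U).1 hU
  · have : ZFSet.sUnion (ran (val S D (seqN fun n => up (ρ n) (ρ n)))) = val S D (fam ρ) := by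
      ext U
      rw [ran_seqN h.gen hρ', ZFSet.mem_sUnion, h.gen.mem_val_fam hρ]
      constructor
      · rintro ⟨F, hF, hU⟩
        obtain ⟨n, rfl⟩ := (h.gen.mem_val_fam hρ').1 hF
        exact ⟨n, ((hv n U).1 hU).symm⟩
      · rintro ⟨n, rfl⟩
        exact ⟨_, (h.gen.mem_val_fam hρ').2 ⟨n, rfl⟩, (hv n _).2 rfl⟩
    rwa [this]

theorem UU_mem (h : Ctx e S D) (n m : ℕ) : nm2 e (UU n m) ∈ S :=
  of_seqN h.gen (h.cst_mem (Cst.row n)) m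

theorem borel_UU (h : Ctx e S D) (n m : ℕ) :
    IsBorelIn point (model S D) (val S D (nm2 e univ)) (val S D (nm2 e (UU n m))) := by
  intro K _ hopen hcompl hunion
  have hK : ∀ j, nm2 e (KK n m j) ∈ S := of_seqN h.gen (h.cst_mem (Cst.kseq n m))
  have h1 : ∀ j, val S D (nm2 e (KK n m j)) ∈ K := by
    intro j
    have h2 : val S D (nm2 e (KK n m j)ᶜ) ∈ K := by
      refine hopen _ (mem_model.2 ⟨_, h.cst_mem (Cst.kc n m j), rfl⟩)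
        ⟨(Prod.map e e '' KK n m j)ᶜ,
          ((isClosed_KK n m j).isCompact.image (h.cont.prodMap h.cont)).isClosed.isOpen_compl,
          fun z => ⟨fun hz => ?_, ?_⟩⟩
      · obtain ⟨v, h3, h4, h5, rfl⟩ := h.mem_nm2.1 hz
        refine ⟨h.point_mem_nm2.2 ⟨trivial, h4, h5⟩, _, ?_, rfl⟩
        rintro ⟨w, h6, h7⟩
        exact h3 ((h.inj.prodMap h.inj) h7 ▸ h6)
      · rintro ⟨h3, w, h4, h5⟩
        obtain ⟨v, _, h6, h7, rfl⟩ := h.mem_nm2.1 h3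
        obtain rfl := point_inj h5
        exact h.point_mem_nm2.2 ⟨fun h8 => h4 ⟨v, h8, rfl⟩, h6, h7⟩
    have h3 : val S D (nm2 e univ) \ val S D (nm2 e (KK n m j)ᶜ) = val S D (nm2 e (KK n m j)) := by
      ext z
      rw [ZFSet.mem_sdiff]
      constructor
      · rintro ⟨h4, h5⟩
        obtain ⟨v, _, h6, h7, rfl⟩ := h.mem_nm2.1 h4
        refine h.point_mem_nm2.2 ⟨?_, h6, h7⟩
        by_contra hn
        exact h5 (h.point_mem_nm2.2 ⟨hn, h6, h7⟩)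
      · intro hz
        obtain ⟨v, h4, h6, h7, rfl⟩ := h.mem_nm2.1 hz
        exact ⟨h.point_mem_nm2.2 ⟨trivial, h6, h7⟩, fun h8 => (h.point_mem_nm2.1 h8).1 h4⟩
    exact h3 ▸ hcompl _ h2
  have h2 := hunion (val S D (fam fun j => nm2 e (KK n m j)))
    (mem_model.2 ⟨_, h.cst_mem (Cst.kfam n m), rfl⟩) (fun U hU => by
      obtain ⟨j, rfl⟩ := (h.gen.mem_val_fam hK).1 hU
      exact h1 j) (countableIn_fam h.gen (h.cst_mem (Cst.kseq n m)))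
  have h3 : ZFSet.sUnion (val S D (fam fun j => nm2 e (KK n m j))) = val S D (nm2 e (UU n m)) := by
    ext z
    rw [ZFSet.mem_sUnion]
    constructor
    · rintro ⟨U, hU, hz⟩
      obtain ⟨j, rfl⟩ := (h.gen.mem_val_fam hK).1 hU
      obtain ⟨v, h4, h5, h6, rfl⟩ := h.mem_nm2.1 hz
      exact h.point_mem_nm2.2 ⟨mem_iUnion.2 ⟨j, h4⟩, h5, h6⟩
    · intro hz
      obtain ⟨v, h4, h5, h6, rfl⟩ := h.mem_nm2.1 hz
      obtain ⟨j, hj⟩ := mem_iUnion.1 h4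
      exact ⟨_, (h.gen.mem_val_fam hK).2 ⟨j, rfl⟩, h.point_mem_nm2.2 ⟨hj, h5, h6⟩⟩
  exact h3 ▸ h2

theorem row_mem (h : Ctx e S D) (n : ℕ) : (fam fun m => nm2 e (UU n m)) ∈ S :=
  of_seqN h.gen (h.cst_mem Cst.big) n

theorem bomega_row (h : Ctx e S D) (n : ℕ) :
    IsBOmega point (model S D) (val S D (nm2 e univ)) (val S D (fam fun m => nm2 e (UU n m))) := by
  refine ⟨mem_model.2 ⟨_, h.row_mem n, rfl⟩, countableIn_fam h.gen (h.cst_mem (Cst.row n)),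
    fun U hU => ?_, fun hU => ?_, fun F hF hfin => ?_⟩
  · obtain ⟨m, rfl⟩ := (h.gen.mem_val_fam (h.UU_mem n)).1 hU
    exact h.borel_UU n m
  · obtain ⟨m, hm⟩ := (h.gen.mem_val_fam (h.UU_mem n)).1 hU
    obtain ⟨p, hp, _, W, _, z, h1, h2, h3⟩ := h.req reqOut (by simp [reqs]) m Empty.elim
      (fun k => k.elim) ⊤ h.gen.top
    have := h.point_mem_nm2.2 ⟨mem_univ z, ⟨p, hp, h1⟩, ⟨p, hp, h2⟩⟩
    rw [← hm] at this
    exact h3 n (h.point_mem_nm2.1 this).1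
  · have hinj : Function.Injective fun v => point (Prod.map e e v) :=
      fun x y hxy => (h.inj.prodMap h.inj) (point_inj hxy)
    have hF' : ((fun v => point (Prod.map e e v)) ⁻¹' (F : Set ZFSet.{0})).Finite :=
      hfin.preimage hinj.injOn
    choose g hg using exists_UU n
    obtain ⟨m, hm⟩ := (hF'.image g).bddAbove
    refine ⟨_, h.gen.val_mem_fam (ρ := fun m => nm2 e (UU n m)) (h.UU_mem n m), fun z hz => ?_⟩
    obtain ⟨v, _, h1, h2, rfl⟩ := h.mem_nm2.1 (hF hz)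
    exact h.point_mem_nm2.2 ⟨UU_mono n (hm ⟨v, hz, rfl⟩) (hg v), h1, h2⟩

theorem big_ok (h : Ctx e S D) :
    val S D (cst e Cst.big) ∈ model S D ∧ IsSeq (val S D (cst e Cst.big)) ∧
      (∀ W ∈ ran (val S D (cst e Cst.big)), IsBOmega point (model S D) (val S D (nm2 e univ)) W) ∧
      ∀ n, ZFSet.pair (natZ n) (val S D (fam fun m => nm2 e (UU n m))) ∈
        val S D (cst e Cst.big) := by
  refine ⟨mem_model.2 ⟨_, h.cst_mem Cst.big, rfl⟩, isSeq_seqN h.gen h.row_mem, fun W hW => ?_,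
    fun n => (pair_mem_seqN h.gen h.row_mem).2 ⟨n, rfl, rfl⟩⟩
  obtain ⟨x, hx⟩ := mem_ran.1 hW
  obtain ⟨n, _, rfl⟩ := (pair_mem_seqN h.gen h.row_mem).1 hx
  exact h.bomega_row n

theorem dom_main (h : Ctx e S D) {β : Type} {ν : ℕ → β → Name Cond} {bd : β → ℕ}
    (hR : reqDom ν bd ∈ reqs e) (hν : ∀ n b, ν n b ∈ S) {t : ZFSet.{0}} (ht : t ∈ model S D)
    (hseq : IsSeq t) : ∃ z : C × C, z.1 ∈ ZZ D ∧ z.2 ∈ ZZ D ∧
      ∀ n b, ZFSet.pair (natZ n) (val S D (ν n b)) ∈ t →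
        ∃ b', val S D (ν n b') = val S D (ν n b) ∧ ∀ m, m ≤ bd b' → z ∉ UU n m := by
  obtain ⟨t', ht', rfl⟩ := mem_model.1 ht
  obtain ⟨p, hp, _, W, _, g, z, h1, h2, h3, h4⟩ := h.req _ hR () (fun _ => t') (fun _ => ht') ⊤
    h.gen.top
  refine ⟨z, ⟨p, hp, h1⟩, ⟨p, hp, h2⟩, fun n b hb => ?_⟩
  rcases h4 n with ⟨b', h5, h6⟩ | h5
  · exact ⟨b', hseq.uniq ((pair_mem_iff h.gen (hν n b') ht' n).2 ⟨p, hp, h6⟩) hb,
      fun m hm hz => h3 n (UU_mono n (hm.trans h5) hz)⟩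
  · obtain ⟨q, hq, h6⟩ := (pair_mem_iff h.gen (hν n b) ht' n).1 hb
    obtain ⟨r, _, hr1, hr2⟩ := h.gen.dir p hp q hq
    exact absurd (h6.mono hr2) (h5 b r hr1)

omit [Small.{0} S] in
theorem single_cover (h : Ctx e S D) {M w : ZFSet.{0}}
    (hw : IsBOmega point M (val S D (nm2 e univ)) w) {z : C × C} (h1 : z.1 ∈ ZZ D)
    (h2 : z.2 ∈ ZZ D) : ∃ U ∈ w, point (Prod.map e e z) ∈ U := by
  obtain ⟨U, hU, h3⟩ := hw.2.2.2.2 {point (Prod.map e e z)} (fun x hx => by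
    rw [ZFSet.mem_singleton.1 hx]
    exact h.point_mem_nm2.2 ⟨trivial, h1, h2⟩) (by simp)
  exact ⟨U, hU, h3 (ZFSet.mem_singleton.2 rfl)⟩

theorem not_s1 (h : Ctx e S D) : ¬ S1 point (model S D) (val S D (nm2 e univ)) := by
  intro hS
  obtain ⟨h1, h2, h3, h4⟩ := h.big_ok
  obtain ⟨t, ht, hseq, h5, h6⟩ := hS _ h1 h2 h3
  obtain ⟨z, hz1, hz2, h7⟩ := h.dom_main (ν := fun n m => nm2 e (UU n m)) (bd := id)
    (by simp [reqs]) h.UU_mem ht hseq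
  obtain ⟨U, hU, h8⟩ := h.single_cover h6 hz1 hz2
  obtain ⟨x, hx⟩ := mem_ran.1 hU
  obtain ⟨n, rfl⟩ := hseq.dom hx
  obtain ⟨m, rfl⟩ := (h.gen.mem_val_fam (h.UU_mem n)).1 (h5 _ _ _ (h4 n) hx)
  obtain ⟨m', h9, h10⟩ := h7 n m hx
  rw [← h9] at h8
  exact h10 m' le_rfl (h.point_mem_nm2.1 h8).1

theorem not_sfin (h : Ctx e S D) : ¬ Sfin point (model S D) (val S D (nm2 e univ)) := by
  classical
  intro hS
  obtain ⟨h1, h2, h3, h4⟩ := h.big_ok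
  obtain ⟨t, ht, hseq, h5, h6⟩ := hS _ h1 h2 h3
  obtain ⟨z, hz1, hz2, h7⟩ := h.dom_main (ν := finN e) (bd := fun T => T.sup id)
    (by simp [reqs]) (fun n T => h.cst_mem (Cst.fin n T)) ht hseq
  obtain ⟨U, hU, h8⟩ := h.single_cover h6 hz1 hz2
  obtain ⟨F, hF, hUF⟩ := ZFSet.mem_sUnion.1 hU
  obtain ⟨x, hx⟩ := mem_ran.1 hF
  obtain ⟨n, rfl⟩ := hseq.dom hx
  obtain ⟨h9, h10⟩ := h5 _ _ _ (h4 n) hx
  have hfin : ∀ T V, V ∈ val S D (finN e n T) ↔ ∃ m ∈ T, val S D (nm2 e (UU n m)) = V := by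
    intro T V
    rw [finN, h.gen.mem_val_fam (fun m => h.UU_mem n _)]
    exact ⟨fun ⟨m, hm⟩ => ⟨m.1, m.2, hm⟩, fun ⟨m, h1, hm⟩ => ⟨⟨m, h1⟩, hm⟩⟩
  obtain ⟨T, hT⟩ : ∃ T, val S D (finN e n T) = F := by
    obtain ⟨T, hT1, hT2⟩ := Set.Finite.exists_subset_finite_image_eq
      (f := fun m => val S D (nm2 e (UU n m))) (s := univ) h10 (fun V hV => by
        obtain ⟨m, hm⟩ := (h.gen.mem_val_fam (h.UU_mem n)).1 (h9 hV)
        exact ⟨m, trivial, hm⟩)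
    obtain ⟨hT2, hT3⟩ := hT2
    refine ⟨hT2.toFinset, ?_⟩
    ext V
    rw [hfin, ← SetLike.mem_coe, ← hT3]
    simp
  subst hT
  obtain ⟨T', h11, h12⟩ := h7 n T hx
  rw [← h11] at hUF
  obtain ⟨m, hm, rfl⟩ := (hfin _ _).1 hUF
  exact h12 m (Finset.le_sup (f := id) hm) (h.point_mem_nm2.1 h8).1

end Ctx

theorem main : ∃ M : ZFSet.{0}, IsZFC M ∧ ∃ X ∈ M, (∀ z ∈ X, z ∈ range real) ∧
    S1 real M X ∧ Sfin real M X ∧ ¬ S1 point M (X.prod X) ∧ ¬ Sfin point M (X.prod X) := by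
  obtain ⟨e, _, h1, h2⟩ := (isClosed_univ (X := ℝ)).exists_nat_bool_injection_of_not_countable
    Set.not_countable_univ
  obtain ⟨S, D, hS, hG, hreq⟩ := exists_gen (reqs e)
  have : Countable S := hS.to_subtype
  have h : Ctx e S D := ⟨h2, h1, hG, hreq⟩
  refine ⟨model S D, hG.isZFC, val S D (nm1 e univ), mem_model.2 ⟨_, h.cst_mem Cst.univ1, rfl⟩,
    fun z hz => ?_, h.s1, h.sfin, ?_, ?_⟩
  · obtain ⟨x, _, _, rfl⟩ := h.mem_nm1.1 hz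
    exact ⟨_, rfl⟩
  · rw [h.prod_eq]
    exact h.not_s1
  · rw [h.prod_eq]
    exact h.not_sfin

end Pool.Agent.Lib.MP_c8e566_gt
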